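import Mathlib
import Pool.Agent.Lib.helper7.SigmaD

namespace Pool.Agent.Results.MP_339821_gt.FrechetNotD

open Set Filter Topology Pool.Agent.Lib.Helper7Sigma

/-- `X` has a dense subspace that is a countable union of discrete subspaces. -/
def LowerDSeparable (X : Type) [TopologicalSpace X] : Prop :=
  ∃ E : ℕ → Set X, (∀ n, DiscreteTopology (E n)) ∧ Dense (⋃ n, E n)

/-- From every sequence of dense subspaces one can select discrete subspaces with dense union. -/
def UpperDSeparable (X : Type) [TopologicalSpace X] : Prop :=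
  ∀ D : ℕ → Set X, (∀ n, Dense (D n)) →
    ∃ F : ℕ → Set X, (∀ n, F n ⊆ D n ∧ DiscreteTopology (F n)) ∧ Dense (⋃ n, F n)

/-- Every point of the closure of `A` outside `A` is the limit of a sequence of points of `A`. -/
def Frechet (X : Type) [TopologicalSpace X] : Prop :=
  ∀ A : Set X, ¬ IsClosed A → ∀ p ∈ closure A \ A,
    ∃ x : ℕ → X, (∀ n, x n ∈ A) ∧ Tendsto x atTop (𝓝 p)

theorem result : ∃ (X : Type) (_ : TopologicalSpace X), T35Space X ∧ Frechet X ∧
    LowerDSeparable X ∧ ¬ UpperDSeparable X := by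
  refine ⟨S ℝ, inferInstance, inferInstance, fun A _ p hp => ?_, dsep, fun h => ?_⟩
  · exact (fu (I := ℝ)).closure_subset_seqClosure A hp.1
  · obtain ⟨D, h1, h2⟩ := notD (I := ℝ) (by simp [Cardinal.mk_real])
    obtain ⟨F, h3, h4⟩ := h (fun _ => D) fun _ => h1
    exact h2 F h3 h4

end Pool.Agent.Results.MP_339821_gt.FrechetNotD
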