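import Mathlib
import Pool.Agent.Lib.helper7.SigmaD

namespace Pool.Agent.Results.MP_339821_gt.SigmaNotD

open Set Filter Topology Pool.Agent.Lib.Helper7Sigma

/-- From every sequence of dense subspaces one can select discrete subspaces with dense union. -/
def UpperDSeparable (X : Type) [TopologicalSpace X] : Prop :=
  ∀ D : ℕ → Set X, (∀ n, Dense (D n)) →
    ∃ F : ℕ → Set X, (∀ n, F n ⊆ D n ∧ DiscreteTopology (F n)) ∧ Dense (⋃ n, F n)

/-- The Σ-product of the Cantor cube `{0,1}^I` (`0 = false`, `1 = true`), as a subspace of the product. -/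
abbrev SigmaCube (I : Type) := {x : I → Bool // {i | x i = true}.Countable}

theorem result : (∀ I : Type, Infinite I → Cardinal.mk I ^ Cardinal.aleph0 = Cardinal.mk I →
    ¬ UpperDSeparable (SigmaCube I)) ∧ ∃ I : Type, Infinite I ∧ ¬ UpperDSeparable (SigmaCube I) := by
  have k : ∀ I : Type, Infinite I → Cardinal.mk I ^ Cardinal.aleph0 = Cardinal.mk I →
      ¬ UpperDSeparable (SigmaCube I) := fun I _ b h => by
    obtain ⟨D, h1, h2⟩ := notD (I := I) b
    obtain ⟨F, h3, h4⟩ := h (fun _ => D) fun _ => h1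
    exact h2 F h3 h4
  exact ⟨k, ℝ, inferInstance, k ℝ inferInstance (by simp [Cardinal.mk_real])⟩

end Pool.Agent.Results.MP_339821_gt.SigmaNotD
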